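import Pool.Agent.Helper19.HN.St

/-! # HN: module BND -/

namespace Pool.Agent.Helper88.HN.BND

open Ordinal Cardinal ZFSet Order Pool.Agent.Helper73.HODC Pool.Agent.Helper73.HM
open Pool.Agent.Helper73.HE Pool.Agent.Helper73.HU Pool.Agent.Helper19.HN

/-- a function without maximum on the elements of `D` below `c.ord` has a least upper bound -/
theorem exists_lub (τ : Ordinal.{0}) (D : Set Ordinal.{0}) (f : Ordinal.{0} → Ordinal.{0})
    (hne : ∃ k ∈ D, k < τ) (hmax : ∀ k ∈ D, k < τ → ∃ k' ∈ D, k' < τ ∧ f k < f k') :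
    ∃ lam : Ordinal.{0}, IsSuccLimit lam ∧ (∀ k ∈ D, k < τ → f k < lam) ∧
      ∀ b < lam, ∃ k ∈ D, k < τ ∧ b ≤ f k := by
  classical
  let g : τ.ToType → Ordinal.{0} := fun x =>
    if (ToType.mk.symm x).1 ∈ D then Order.succ (f (ToType.mk.symm x).1) else 0
  have h1 : ∀ k ∈ D, k < τ → f k < ⨆ x, g x := by
    intro k hk hkτ
    have h2 : g (ToType.mk ⟨k, hkτ⟩) = Order.succ (f k) := by
      simp only [g, OrderIso.symm_apply_apply]
      rw [if_pos hk]
    have h3 := Ordinal.le_iSup g (ToType.mk ⟨k, hkτ⟩)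
    rw [h2] at h3
    exact (Order.lt_succ _).trans_le h3
  have h2 : ∀ b < ⨆ x, g x, ∃ k ∈ D, k < τ ∧ b ≤ f k := by
    intro b hb
    obtain ⟨x, hx⟩ := Ordinal.lt_iSup_iff.1 hb
    by_cases h : (ToType.mk.symm x).1 ∈ D
    · simp only [g] at hx
      rw [if_pos h] at hx
      exact ⟨_, h, (ToType.mk.symm x).2, Order.le_of_lt_succ hx⟩
    · simp only [g] at hx
      rw [if_neg h] at hx
      exact absurd hx (not_lt_of_ge zero_le)
  refine ⟨⨆ x, g x, ?_, h1, h2⟩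
  rw [Ordinal.isSuccLimit_iff]
  refine ⟨?_, ?_⟩
  · obtain ⟨k, hk, hkτ⟩ := hne
    exact (lt_of_le_of_lt zero_le (h1 k hk hkτ)).ne'
  · rw [isSuccPrelimit_iff_succ_lt]
    intro b hb
    obtain ⟨k, hk, hkτ, hbk⟩ := h2 b hb
    obtain ⟨k', hk', hkτ', h3⟩ := hmax k hk hkτ
    exact (Order.succ_le_of_lt (hbk.trans_lt h3)).trans_lt (h1 k' hk' hkτ')

theorem bnd : StBND := by
  intro c D f hc hc'
  have hcof : c.ord.cof = c := hc.cof_ord
  have hτ : ℵ₀ < c.ord.cof := by rw [hcof]; exact hc'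
  have hlimc : IsSuccLimit c.ord := isSuccLimit_of_cof hτ
  by_cases hne : ∃ k ∈ D, k < c.ord
  swap
  · refine ⟨0, Set.univ, club_univ hlimc, ?_⟩
    intro ρ _ hρ hρc _ S r hS hr
    obtain ⟨a, haS, -, haρ⟩ := hS _ (club_univ (isSuccLimit_of_cof hρc))
    obtain ⟨h1, h2⟩ := hr a haS haρ
    exact absurd ⟨_, h2, (h1.trans haρ).trans hρ⟩ hne
  by_cases hmax : ∃ k ∈ D, k < c.ord ∧ ∀ k' ∈ D, k' < c.ord → f k' ≤ f k
  · obtain ⟨k, hk, hkc, hk'⟩ := hmax
    refine ⟨0, Set.Ioi k, club_Ioi hlimc hkc, ?_⟩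
    intro ρ hρk hρ hρc _ S r hS hr
    refine ⟨k, hρk, hk, hS.mono fun i hi hiρ => ⟨hi, ?_⟩⟩
    obtain ⟨h1, h2⟩ := hr i hi hiρ
    exact hk' _ h2 ((h1.trans hiρ).trans hρ)
  push Not at hmax
  obtain ⟨lam, hlam, hlt, hcofi⟩ := exists_lub c.ord D f hne hmax
  by_cases hcase : lam.cof < c
  · -- few values
    obtain ⟨ι, z, hι, hz, hz'⟩ := cv_cofinal lam
    have h1 : ∀ i, ∃ k ∈ D, k < c.ord ∧ z i ≤ f k := fun i => hcofi _ (hz i)
    choose k hkD hkc hkz using h1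
    have hj : (⨆ i, Order.succ (k i)) < c.ord := by
      refine iSup_lt_of_lt_cof ?_ fun i => hlimc.succ_lt (hkc i)
      rw [hι, hcof]
      exact hcase
    refine ⟨lam.cof, Set.Ioi (⨆ i, Order.succ (k i)), club_Ioi hlimc hj, ?_⟩
    intro ρ hρj hρ hρc hne' S r hS hr
    obtain ⟨γ, hγ, hS'⟩ := Inp.pb ρ lam S (fun a => f (r a)) hρc hlam hne'.symm hS (by
      intro a ha haρ
      obtain ⟨h1, h2⟩ := hr a ha haρ
      exact hlt _ h2 ((h1.trans haρ).trans hρ))
    obtain ⟨i, hi⟩ := hz' γ hγ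
    refine ⟨k i, ?_, hkD i, hS'.mono fun a ha _ => ⟨ha.1, (ha.2.trans hi).trans (hkz i)⟩⟩
    exact ((Order.lt_succ _).trans_le (Ordinal.le_iSup (fun i => Order.succ (k i)) i)).trans hρj
  · -- large cofinality
    have hcase' : c ≤ lam.cof := not_lt.1 hcase
    have h1 : ∀ j, ∃ k, j < c.ord → k ∈ D ∧ k < c.ord ∧ ∀ l ∈ D, l < j → f l ≤ f k := by
      intro j
      by_cases hj : j < c.ord
      swap
      · exact ⟨0, fun h => absurd h hj⟩
      classical
      let g : j.ToType → Ordinal.{0} := fun x =>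
        if (ToType.mk.symm x).1 ∈ D then f (ToType.mk.symm x).1 else 0
      have hlam0 : 0 < lam := by
        obtain ⟨k, hk, hkc⟩ := hne
        exact lt_of_le_of_lt zero_le (hlt k hk hkc)
      have hs : (⨆ x, g x) < lam := by
        refine iSup_lt_of_lt_cof ?_ fun x => ?_
        · rw [mk_toType]
          exact lt_of_lt_of_le (Cardinal.lt_ord.1 hj) hcase'
        · by_cases hx : (ToType.mk.symm x).1 ∈ D
          · simp only [g]
            rw [if_pos hx]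
            exact hlt _ hx (lt_trans (ToType.mk.symm x).2 hj)
          · simp only [g]
            rw [if_neg hx]
            exact hlam0
      obtain ⟨k, hk, hkc, hk'⟩ := hcofi _ hs
      refine ⟨k, fun _ => ⟨hk, hkc, fun l hl hlj => ?_⟩⟩
      have h2 : g (ToType.mk ⟨l, hlj⟩) = f l := by
        simp only [g, OrderIso.symm_apply_apply]
        rw [if_pos hl]
      have h3 := Ordinal.le_iSup g (ToType.mk ⟨l, hlj⟩)
      rw [h2] at h3
      exact h3.trans hk'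
    choose h hh using h1
    refine ⟨0, {a | ∀ b < a, h b < a}, Club.closure hc hc' h (fun b hb => (hh b hb).2.1), ?_⟩
    intro ρ hρh hρ hρc _ S r hS hr
    obtain ⟨η, hη, hS'⟩ := Inp.fo ρ S r hρc hS fun a ha haρ _ => (hr a ha haρ).1
    have hη' : Order.succ η < ρ := (isSuccLimit_of_cof hρc).succ_lt hη
    obtain ⟨h2, -, h4⟩ := hh (Order.succ η) (hη'.trans hρ)
    refine ⟨h (Order.succ η), hρh _ hη', h2, hS'.mono fun a ha haρ => ⟨ha.1, ?_⟩⟩
    exact h4 _ (hr a ha.1 haρ).2 (Order.lt_succ_iff.2 ha.2)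

end Pool.Agent.Helper88.HN.BND
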